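import Pool.Agent.NPG.Stmts
import Pool.Agent.Helper77_LSG.SLO

/-!
# Squad NPG, row SLR: the slots lemma for functions which vanish on a set
-/

set_option autoImplicit false

namespace Pool.Agent.NPG.H44

open Set Topology Function
open Pool.Agent.LSG

/-- evaluation at a point -/
noncomputable def evR (D : Type) [TopologicalSpace D] (Z : Set D) (x : D) :
    ↥(Rv D Z) →L[ℝ] ℝ where
  toFun f := f.1 x
  map_add' _ _ := rfl
  map_smul' _ _ := rfl
  cont := (continuous_apply x).comp continuous_subtype_val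

/-- the operator given by a locally finite family of weights, with values in `Rv` -/
theorem exists_opR {E Y I : Type} [AddCommGroup E] [Module ℝ E] [TopologicalSpace E]
    [TopologicalSpace Y] (Z : Set Y) (w : I → Y → ℝ) (ev : I → Y → E →L[ℝ] ℝ)
    (hw : ∀ i, Continuous (w i)) (hlf : LocallyFinite fun i => support (w i))
    (hev : ∀ i e, Continuous fun y => ev i y e) (hZ : ∀ i e, ∀ y ∈ Z, ev i y e = 0) :
    ∃ T : E →L[ℝ] ↥(Rv Y Z), ∀ e y, (T e).1 y = ∑ᶠ i, w i y * ev i y e := by
  obtain ⟨T, hT⟩ := Pool.Agent.LSG.H77.exists_op w ev hw hlf hev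
  have hz : ∀ e, ∀ x ∈ Z, (T e).1 x = 0 := by
    intro e x hx
    rw [hT]
    have h1 : ∀ i, w i x * ev i x e = 0 := fun i => by rw [hZ i e x hx, mul_zero]
    rw [finsum_congr h1, finsum_zero]
  refine ⟨{ toFun := fun e => ⟨(T e).1, (T e).2, hz e⟩
            map_add' := ?_
            map_smul' := ?_
            cont := ?_ }, fun e y => hT e y⟩
  · intro e e'
    apply Subtype.ext
    show (T (e + e')).1 = (T e).1 + (T e').1
    rw [map_add]
    rfl
  · intro c e
    apply Subtype.ext
    show (T (c • e)).1 = c • (T e).1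
    rw [map_smul]
    rfl
  · exact Continuous.subtype_mk (continuous_subtype_val.comp T.continuous) _

/-- Row SLR. -/
theorem slr : SlrStmt := by
  classical
  intro D B _ Z a τ hZ hlf1 hlf2 hsq hinj
  have hZ' : ∀ n b, ∀ y ∈ Z, (τ n b).symm y ∈ Z := by
    intro n b y hy
    rw [← hZ n b, (τ n b).apply_symm_apply]
    exact hy
  -- the map i
  obtain ⟨i, hi⟩ := exists_opR (E := ℕ → ↥(Rv D Z)) (Y := D) (I := ℕ × B) Z
    (fun p y => a p.1 p.2 ((τ p.1 p.2).symm y))
    (fun p y => (evR D Z ((τ p.1 p.2).symm y)).comp (ContinuousLinearMap.proj p.1))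
    (fun p => (a p.1 p.2).continuous.comp (τ p.1 p.2).symm.continuous)
    (by
      refine hlf2.subset ?_
      intro p y hy
      exact ⟨(τ p.1 p.2).symm y, hy, (τ p.1 p.2).apply_symm_apply y⟩)
    (by
      intro p e
      exact (e p.1).2.1.comp (τ p.1 p.2).symm.continuous)
    (by
      intro p e y hy
      exact (e p.1).2.2 _ (hZ' p.1 p.2 y hy))
  -- the map p
  have hp := fun n : ℕ => exists_opR (E := ↥(Rv D Z)) (Y := D) (I := B) Z
    (fun b y => a n b y) (fun b y => evR D Z (τ n b y))
    (fun b => (a n b).continuous) (hlf1 n)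
    (by
      intro b e
      exact e.2.1.comp (τ n b).continuous)
    (by
      intro b e y hy
      exact e.2.2 _ ((hZ n b y).mpr hy))
  choose p hp using hp
  refine ⟨i, ContinuousLinearMap.pi p, ?_⟩
  intro F
  funext n
  apply Subtype.ext
  funext h
  show (p n (i F)).1 h = (F n).1 h
  rw [hp]
  have hterm : ∀ b, a n b h * evR D Z (τ n b h) (i F) = (a n b h) ^ 2 * (F n).1 h := by
    intro b
    by_cases h0 : a n b h = 0
    · rw [h0]; ring
    · show a n b h * (i F).1 (τ n b h) = _
      rw [hi]
      have hsingle : ∑ᶠ q : ℕ × B, a q.1 q.2 ((τ q.1 q.2).symm (τ n b h)) *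
          ((evR D Z ((τ q.1 q.2).symm (τ n b h))).comp (ContinuousLinearMap.proj q.1)) F =
          a n b ((τ n b).symm (τ n b h)) *
          ((evR D Z ((τ n b).symm (τ n b h))).comp (ContinuousLinearMap.proj n)) F := by
        refine finsum_eq_single _ ((n, b) : ℕ × B) ?_
        intro q hq
        by_cases hq0 : a q.1 q.2 ((τ q.1 q.2).symm (τ n b h)) = 0
        · rw [hq0, zero_mul]
        · exfalso
          apply hq
          obtain ⟨h1, h2⟩ := hinj n b q.1 q.2 h ((τ q.1 q.2).symm (τ n b h)) h0 hq0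
            ((τ q.1 q.2).apply_symm_apply _).symm
          exact Prod.ext h1.symm h2.symm
      rw [hsingle, (τ n b).symm_apply_apply]
      show a n b h * (a n b h * (F n).1 h) = _
      ring
  rw [finsum_congr hterm, ← finsum_mul, hsq n h, one_mul]

end Pool.Agent.NPG.H44
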